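import Pool.Agent.helper68.AM.SpecX

/-!
# AM XW2: the curve `a³ b²`
-/

set_option autoImplicit false

namespace AM

open Pool.Agent.helper72.Sq Matrix

theorem XW2_tr (X Y : SpecialLinearGroup (Fin 2) ℝ) : tr (X * Y) = tr X * tr Y - tr (X * Y⁻¹) := by
  unfold tr
  rw [SpecialLinearGroup.SL2_inv_expl]
  simp only [sl2_mul]
  simp
  ring

theorem XW2_id (A B : SpecialLinearGroup (Fin 2) ℝ) :
    tr (A ^ 3 * B ^ 2) = tr (A ^ 2 * B) * tr (A * B) + (1 - tr (A * B * A⁻¹ * B⁻¹)) * tr A := by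
  have h1 : tr (A ^ 3 * B ^ 2) = tr ((A ^ 2 * B) * (B * A)) := by
    have : (A ^ 2 * B) * (B * A) = (A ^ 2 * B ^ 2) * A := by
      rw [pow_two B]; simp only [mul_assoc]
    rw [this, tr_comm (A ^ 2 * B ^ 2) A, ← mul_assoc, ← pow_succ']
  have h2 : A ^ 2 * B * (B * A)⁻¹ = A * (A * (B * A⁻¹ * B⁻¹)) := by
    rw [_root_.mul_inv_rev, pow_two]; simp only [mul_assoc]
  have h3 : A * (B * A⁻¹ * B⁻¹) = A * B * A⁻¹ * B⁻¹ := by simp only [mul_assoc]
  rw [h1, XW2_tr, h2, tr_mul_mul, tr_conj, tr_inv, h3, tr_comm B A]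
  ring

theorem XW2_len (ρ : F2 →* SpecialLinearGroup (Fin 2) ℝ) (g : F2) (h : 2 < tr (ρ g)) :
    gLen ρ g = len (tr (ρ g)) := by
  unfold gLen len
  rw [abs_of_pos (by linarith)]

theorem XW2 (hXE : XE_stmt) : XW2_stmt := by
  intro ρ hA
  set κ := kap (trTri ρ (ga, gb)) with hκ
  have hκ0 : 0 < κ := hA.kpos
  refine ⟨2 * Real.log (4 + κ) + 4 * Real.log 2, fun φ hφ => ?_⟩
  obtain ⟨hA2, hB2, hAB2, -, hτ⟩ := hXE ρ hA φ hφ
  have hθ : φ * (twA * twB) ∈ MCG :=
    mul_mem hφ (mul_mem (Subgroup.subset_closure (by simp)) (Subgroup.subset_closure (by simp)))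
  obtain ⟨hV2, hW2, hVW2, -, -⟩ := hXE ρ hA _ hθ
  set A := ρ (φ ga) with hAdef
  set B := ρ (φ gb) with hBdef
  have eA : (φ * (twA * twB)) ga = φ (ga ^ 2 * gb) := by
    rw [MulAut.mul_apply, MulAut.mul_apply, twB_a, map_mul twA, twA_a, twA_b, pow_two, mul_assoc]
  have eB : (φ * (twA * twB)) gb = φ (ga * gb) := by
    rw [MulAut.mul_apply, MulAut.mul_apply, twB_b, twA_b]
  have rV : ρ (φ (ga ^ 2 * gb)) = A ^ 2 * B := by simp [hAdef, hBdef]
  have rW : ρ (φ (ga * gb)) = A * B := by simp [hAdef, hBdef]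
  have rT : ρ (φ (ga ^ 3 * gb ^ 2)) = A ^ 3 * B ^ 2 := by simp [hAdef, hBdef]
  rw [eA, eB, rV, rW] at hVW2
  rw [eA, rV] at hV2
  rw [eB, rW] at hW2
  set v := tr (A ^ 2 * B) with hv
  set w := tr (A * B) with hw
  have hid := XW2_id A B
  rw [hτ, ← hv, ← hw] at hid
  -- `tr A ≤ v w`
  have hAvw : tr A ≤ v * w := by
    have h1 := XW2_tr (A ^ 2 * B) (A * B)
    have h2 : A ^ 2 * B * (A * B)⁻¹ = A := by
      rw [_root_.mul_inv_rev, pow_two]; group
    rw [h2] at h1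
    linarith
  set T := tr (A ^ 3 * B ^ 2) with hT
  have hT1 : v * w ≤ T := by
    have : 0 ≤ (3 + κ) * tr A := by positivity
    nlinarith
  have hT2 : T ≤ (4 + κ) * (v * w) := by
    have : (3 + κ) * tr A ≤ (3 + κ) * (v * w) :=
      mul_le_mul_of_nonneg_left hAvw (by linarith)
    nlinarith
  have hvw4 : 4 < v * w := by nlinarith
  have hT4 : 2 < T := by linarith
  rw [XW2_len ρ _ (by rw [rT]; exact hT4), XW2_len ρ _ (by rw [rV]; exact hV2),
    XW2_len ρ _ (by rw [rW]; exact hW2), rT, rV, rW, ← hT, ← hv, ← hw]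
  have b1 := two_log_le_len hT4.le
  have b2 := len_le_two_log hT4.le
  have b3 := two_log_le_len hV2.le
  have b4 := len_le_two_log hV2.le
  have b5 := two_log_le_len hW2.le
  have b6 := len_le_two_log hW2.le
  have l1 : Real.log T ≤ Real.log (4 + κ) + (Real.log v + Real.log w) := by
    rw [← Real.log_mul (by linarith) (by linarith), ← Real.log_mul (by linarith) (by nlinarith)]
    exact Real.log_le_log (by linarith) hT2
  have l2 : Real.log v + Real.log w ≤ Real.log T := by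
    rw [← Real.log_mul (by linarith) (by linarith)]
    exact Real.log_le_log (by linarith) hT1
  have l3 : 0 ≤ Real.log (4 + κ) := Real.log_nonneg (by linarith)
  have l4 : 0 ≤ Real.log 2 := Real.log_nonneg (by norm_num)
  rw [Real.log_div (by linarith) (by norm_num)] at b1 b3 b5
  rw [abs_le]
  constructor <;> linarith

end AM
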